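import Pool.Agent.H.MP_f72ff1_an.B

set_option autoImplicit false

namespace Pool.Agent.Results.MP_f72ff1_an.No

open MeasureTheory Metric
open scoped ENNReal NNReal ContDiff

/-- Euclidean space of dimension d -/
abbrev E (d : ℕ) := EuclideanSpace ℝ (Fin d)

/-- bilinear spherical average over the unit sphere of the Euclidean product -/
noncomputable def avg {d : ℕ} (t : ℝ) (f g : E d → ℝ) (x : E d) : ℝ :=
  ⨍ w : sphere (0 : WithLp 2 (E d × E d)) 1, f (x - t • w.1.fst) * g (x - t • w.1.snd)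
    ∂(volume : Measure (WithLp 2 (E d × E d))).toSphere

/-- lacunary bilinear spherical maximal function -/
noncomputable def lac {d : ℕ} (f g : E d → ℝ) (x : E d) : ℝ≥0∞ :=
  ⨆ l : ℤ, ‖avg ((2 : ℝ) ^ l) f g x‖ₑ

theorem result (d : ℕ) (hd : 2 ≤ d) (q : ℝ) (hq : 1 ≤ q) :
    ¬ ∃ C : ℝ≥0, ∀ f g : E d → ℝ, ContDiff ℝ ∞ f → HasCompactSupport f → ContDiff ℝ ∞ g →
      HasCompactSupport g →
      (∫⁻ x, lac f g x ^ (q / (q + 1))) ^ ((q + 1) / q) ≤
        C * eLpNorm f 1 volume * eLpNorm g (ENNReal.ofReal q) volume := by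
  rintro ⟨C, h⟩
  have : NeZero d := ⟨by omega⟩
  exact Pool.Agent.H.MP_f72ff1_an.main hq C h

end Pool.Agent.Results.MP_f72ff1_an.No
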